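import Pool.Agent.U483.KD.Main

/-!
# Beilinson's regulator for `K_j^{(j)}` and the Grothendieck ring of varieties

`𝓜` is the category of the Chow motives with rational coefficients over `ℚ`, and `H.h X` is the motive of the smooth
projective `X`. For `j ≥ 2` the map `(r j).reg A` is Beilinson's regulator
`H^j_M(A, ℚ(j))_ℤ ⟶ H^j_D(A_ℝ, ℝ(j))` on Scholl's integral part, a functor of the Chow motive `A`; for `A = h(X)` this is
`K_j(X)^{(j)}_ℤ ⟶ H_B^{j-1}(X_ℝ, ℝ(j-1))^{F_∞ = 1}`. The property `Onto X` says that `reg_ℝ ⊗ ℝ` is surjective for all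
`j ≥ 2`, which is the surjectivity in part (1) of Q1.

* `Onto X` holds if and only if a multiple of the class of `X` is in the subgroup of `K_0(Var_ℚ)` generated by the classes
  of the smooth projective `Y` with `Onto Y`. If `n [X] = n [X']`, `n ≠ 0`, then `Onto X` holds if and only if `Onto X'` holds.
* If `Onto` is true in dimension at most `D` (`D = 0` is a theorem of Borel), it is true for all smooth projective `X`,
  in arbitrary dimension, such that a multiple of the class is a combination of classes of (open or singular)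
  schemes of dimension at most `D` and of smooth projective `Y` with `Onto Y`.
-/

set_option autoImplicit false

open CategoryTheory CategoryTheory.Limits AlgebraicGeometry Pool.Agent.Y116.UV
  Pool.Agent.U483.KM Pool.Agent.U483.GU Pool.Agent.U483.KS Pool.Agent.U483.KD

namespace Pool.Agent.Results.MP_4a177b_nt.GrothendieckRing

universe w x

/-- The regulators `r j` of the smooth projective `X` are surjective after tensoring with `ℝ`. -/
def Onto {𝓜 : Type w} [Category.{x} 𝓜] [Preadditive 𝓜] [HasBinaryBiproducts 𝓜]
    (H : ChowMotives.{w, x} ℚ 𝓜) {ι : Type} (r : ι → Regulator.{w, x} ℝ 𝓜) (X : Sch ℚ) : Prop :=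
  ∀ j, (r j).Spans (H.h X)

theorem result (𝓜 : Type w) [Category.{x} 𝓜] [Preadditive 𝓜] [HasBinaryBiproducts 𝓜]
    (H : ChowMotives.{w, x} ℚ 𝓜)
    -- the regulators for `j ≥ 2`
    (r : {j : ℕ // 2 ≤ j} → Regulator.{w, x} ℝ 𝓜) :
    Detected (Onto H r) ∧ DetectedByDimension (Onto H r) :=
  detected_regulators H r (E' := ℚ) (ι' := Empty) (fun t => t.elim) fun _ _ =>
    ⟨fun h => ⟨h, fun t => t.elim⟩, fun h => h.1⟩

end Pool.Agent.Results.MP_4a177b_nt.GrothendieckRing
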