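import Pool.Agent.U745.DS.NF
import Pool.Agent.U745.DS.Use
import Pool.Agent.R409.RA.Mean
import Pool.Agent.U745.QB.Inst
import Pool.Agent.Results.MP_29b22a_nt.QuadricBundles

/-!
# The numbers `L^*(h^(j-1)(X), 0)` of Beilinson's conjecture as limits of products of Frobenius data

Let `X` be a smooth projective variety over a number field `K` (`K = ℚ` is the case of the problem) and
`L(s) = L(H^i(X), s) = ∏_v ∏_j (1 - α_{v,j} q_v^{-s})⁻¹`, the product over all primes `v` of `K`; for the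
primes of good reduction the `α_{v,j}` are the eigenvalues of Frobenius on `H^i(X)`.  Part (2) of the
conjecture says that for `i = j - 1` the leading coefficient `L^*(0)` of `L(s)` at `s = 0` is a rational
multiple of the regulator determinant `R`.  The point `0` is at a distance of more than `1` from the
half-plane `Re s > i / 2 + 1` where the Euler product converges, beyond the critical strip.  We treat any
integer `m` instead of `0`.  For a real number `τ` put, with `ω = 1 + iτ` and `x > 1`,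

`P_τ(x) = exp ∑_v ∑_{k ≥ 1} t_{v,k} / (k q_v^{k m} Γ(1 + ω k log q_v / log x))`,
`t_{v,k} = ∑_j α_{v,j}^k`,

where `t_{v,k}` is the trace of the `k`-th power of Frobenius, an integer for the primes of good
reduction; for `m = 0` the powers of `q_v` disappear.  The series converges absolutely for every integer
`m`.  Put `κ = ∫_0^∞ (e^{-t} - 1 / Γ(1 + t)) dt / t`.  Suppose that `L(s)` has a meromorphic
continuation `F` to `Re s ≥ m`.  Nothing is assumed on its zeros and poles, and no functional equation.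
We prove:

* for all `τ`, except for finitely many in every bounded interval, `F` has no zeros and poles on the
  ray `m + ω y`, `y > 0`, and then `P_τ(x) (log x / (ω e^κ))^r = L^*(m) + O(1 / log x)`,
  `r = ord_{s=m} F`;
* for the other `τ` one has `log P_τ(x) ~ - k ∫_0^∞ (x^{y u} - 1) du / (u Γ(1 + u))`, `m + ω y` being the
  last zero or pole on the ray and `k` its order, and `|log |P_τ(x)|| ≥ exp (x^c)` for all `c < y` and
  large `x`;
* for every number `R ≠ 0` the following are equivalent: (a) `L^*(m)` is a rational multiple of `R`;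
  (b) for one integer `r`, one `τ` and one sequence `x → ∞` the numbers
  `P_τ(x) (log x / (ω e^κ))^r / R` tend to a rational number different from `0`; (c) the same for all
  free `τ`, with the error `O(1 / log x)`.

Unconditional cases, for every even `j = 2k + 2`.  Let `D` be squarefree with all prime factors
`≡ 1 mod 4` and `Y` a quadric bundle of relative dimension `2k` over the projective line with the
discriminant `e² Δ_D`, `Δ_D = -3 D³ (16 x⁶ - 15 x⁴ y² - 15 x² y⁴ + 16 y⁶)`; so `h^(j-1)(Y) = h¹(C)(-k)`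
for the curve `C : w² = Δ_D` of genus two, whose Jacobian is isogenous to the square of the twist `E_D` of
`X_0(49)`.  For at least 41.94 percent of the `D` and for all `k ≥ 0` and all such `Y` the function
`L(s) = exp ∑_q t(q) / (j q^s)` of the prime powers `q = p^j`, `p` not dividing `42 D e`, and the numbers
`t(q) = (q + 1) (1 + q + ... + q^(2k)) - #Y(F_q)` is entire, and for ALL integers `m`, in particular for
`m = 0`, the leading coefficient `L^*(m)` is the limit of the products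
`exp (∑_q t(q) / (j q^m Γ(1 + ω log q / log x))) (log x / (ω e^κ))^r`, with the error `O(1 / log x)`, for
all `τ` but finitely many in every bounded interval.
-/

set_option autoImplicit false

namespace Pool.Agent.Results.MP_4a177b_nt.LeadingCoefficientsAsLimits

open NumberField IsDedekindDomain Filter Topology Classical

section defs

variable {K : Type} [Field K] [NumberField K] {n : ℕ}

/-- The set `X` of homogeneous polynomials over a ring `R` in `n` variables defines a projective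
scheme over `R`.  For a field `κ` with `q` elements and a homomorphism `R → κ` this is `(q - 1)`
times the number of the points of `X` with coordinates in `κ`: the number of the nonzero solutions
of the equations. -/
noncomputable def cone {R : Type} [CommRing R] (X : Set (MvPolynomial (Fin n) R)) {κ : Type}
    [Field κ] (φ : R →+* κ) : ℕ :=
  Nat.card {u : Fin n → κ // u ≠ 0 ∧ ∀ f ∈ X, MvPolynomial.eval₂ φ u f = 0}

/-- `α_1, …, α_N` are the eigenvalues of the geometric Frobenius at the prime `v` of `K` on `H^i(X)`,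
for a variety `X` of dimension `d`: there are finite multisets `β_k` of complex numbers of absolute
value `q_v^{k/2}`, `k = 0, …, 2d`, with `β_i = {α_1, …, α_N}`, such that for every finite extension
`κ` of the residue field of `v`, of degree `e`, the number of the points of `X` with coordinates in
`κ` is `∑ (-1)^k ∑_{z ∈ β_k} z^e`.  By the theorem of Deligne such `β_k` exist at almost all primes
if `X` is smooth, with `N` the `i`-th Betti number of `X`; for `k ≤ 2d` they are unique. -/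
def IsFrobenius (X : Set (MvPolynomial (Fin n) (𝓞 K))) (d i : ℕ)
    (v : HeightOneSpectrum (𝓞 K)) {N : ℕ} (α : Fin N → ℂ) : Prop :=
  ∃ β : ℕ → Multiset ℂ, β i = Finset.univ.val.map α ∧
    (∀ k, ∀ z ∈ β k, ‖z‖ = (Ideal.absNorm v.asIdeal : ℝ) ^ ((k : ℝ) / 2)) ∧
    ∀ (κ : Type) [Field κ] [Finite κ] (φ : 𝓞 K →+* κ) (e : ℕ), RingHom.ker φ = v.asIdeal →
      Nat.card κ = Ideal.absNorm v.asIdeal ^ e →
      (cone X φ : ℂ) = ((Ideal.absNorm v.asIdeal : ℂ) ^ e - 1) *
          ∑ k ∈ Finset.range (2 * d + 1), (-1 : ℂ) ^ k * ((β k).map (fun z => z ^ e)).sum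

/-- `α_{v,1}, …, α_{v,N}` are the parameters of the Euler factors of `L(H^i(X), s)` at all primes `v`
of `K`: for almost all `v` these are the eigenvalues of the geometric Frobenius on `H^i(X)`, and for all
`v` they are numbers of absolute value at most `q_v^{i/2}`.  (At a bad prime these are the eigenvalues
of Frobenius on the inertia invariants of `H^i(X)`, completed by zeros.) -/
def IsParameter (X : Set (MvPolynomial (Fin n) (𝓞 K))) (d i : ℕ) {N : ℕ}
    (α : HeightOneSpectrum (𝓞 K) → Fin N → ℂ) : Prop :=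
  (∀ᶠ v in cofinite, IsFrobenius X d i v (α v)) ∧
    ∀ v j, ‖α v j‖ ≤ (Ideal.absNorm v.asIdeal : ℝ) ^ ((i : ℝ) / 2)

/-- `L(H^i(X), s)`, the Euler product over all primes `v` of `K`. -/
noncomputable def LFun {N : ℕ} (α : HeightOneSpectrum (𝓞 K) → Fin N → ℂ) (s : ℂ) : ℂ :=
  ∏' v : HeightOneSpectrum (𝓞 K), ∏ j, (1 - α v j * (Ideal.absNorm v.asIdeal : ℂ) ^ (-s))⁻¹

/-- `F` is meromorphic at all points of the half-plane `Re s ≥ m`, and it is the L-function for
`Re s > i/2 + 1`. -/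
def IsContinuation {N : ℕ} (i : ℕ) (m : ℤ) (α : HeightOneSpectrum (𝓞 K) → Fin N → ℂ)
    (F : ℂ → ℂ) : Prop :=
  (∀ s : ℂ, (m : ℝ) ≤ s.re → MeromorphicAt F s) ∧ ∀ s : ℂ, (i : ℝ) / 2 + 1 < s.re → F s = LFun α s

/-- The term of `log P_τ(x)` at the `k`-th power of `v`, `k = j + 1`:
`t_{v,k} / (k q_v^{k m} Γ(1 + ω k log q_v / log x))`. -/
noncomputable def term {N : ℕ} (m : ℤ) (α : HeightOneSpectrum (𝓞 K) → Fin N → ℂ) (τ x : ℝ)
    (p : HeightOneSpectrum (𝓞 K) × ℕ) : ℂ :=
  (∑ j, α p.1 j ^ (p.2 + 1)) / ((p.2 + 1) * ((Ideal.absNorm p.1.asIdeal : ℂ) ^ m) ^ (p.2 + 1) *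
    Complex.Gamma (1 + (1 + τ * Complex.I) *
      (((p.2 + 1) * Real.log (Ideal.absNorm p.1.asIdeal) : ℝ) / Real.log x)))

/-- `log P_τ(x)`. -/
noncomputable def logProd {N : ℕ} (m : ℤ) (α : HeightOneSpectrum (𝓞 K) → Fin N → ℂ)
    (τ x : ℝ) : ℂ := ∑' p : HeightOneSpectrum (𝓞 K) × ℕ, term m α τ x p

/-- The point `m + (1 + iτ) y`. -/
noncomputable def ray (m : ℤ) (τ y : ℝ) : ℂ := m + (1 + τ * Complex.I) * y

/-- `F` has a zero or a pole on the ray `{m + (1 + iτ) y : y > 0}`. -/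
def Blocked (m : ℤ) (F : ℂ → ℂ) (τ : ℝ) : Prop :=
  ∃ y : ℝ, 0 < y ∧ meromorphicOrderAt F (ray m τ y) ≠ 0

/-- The leading term of `F` at `s = m` is `B (s - m)^r`: the function `(s - m)^{-r} F(s)` tends to `B`
for `s → m`. -/
def LeadingTerm (m : ℤ) (F : ℂ → ℂ) (r : ℤ) (B : ℂ) : Prop :=
  Tendsto (fun s : ℂ => (s - m) ^ (-r) * F s) (𝓝[≠] (m : ℂ)) (𝓝 B)

end defs

/-- `κ = ∫_0^∞ (e^{-t} - 1/Γ(1 + t)) dt/t`. -/
noncomputable def kappa : ℝ :=
  ∫ t in Set.Ioi (0 : ℝ), (Real.exp (-t) - (Real.Gamma (1 + t))⁻¹) / t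

/-- `∫_0^∞ (e^{yu} - 1) / (u Γ(1 + u)) du`. -/
noncomputable def grow (y : ℝ) : ℝ :=
  ∫ u in Set.Ioi (0 : ℝ), (Real.exp (y * u) - 1) / (u * Real.Gamma (1 + u))

/-- `exp (W(x)) (log x / (ω e^κ))^r`, `ω = 1 + iτ`. -/
noncomputable def normalised (W : ℝ → ℂ) (τ : ℝ) (r : ℤ) (x : ℝ) : ℂ :=
  Complex.exp (W x) * (Real.log x / ((1 + τ * Complex.I) * Real.exp kappa)) ^ r

/-- For one `τ` and one sequence `x → ∞` the number `c P_τ(x) (log x / (ω e^κ))^r` tends to `b`. -/
def LimitPoint (W : ℝ → ℝ → ℂ) (r : ℤ) (c b : ℂ) : Prop :=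
  ∃ (τ : ℝ) (x : ℕ → ℝ), Tendsto x atTop atTop ∧
    Tendsto (fun k => c * normalised (W τ) τ r (x k)) atTop (𝓝 b)

/-- For all `τ` such that `F` has no zeros and poles on the ray,
`c P_τ(x) (log x / (ω e^κ))^r = b + O(1 / log x)`. -/
def FreeLaw (m : ℤ) (F : ℂ → ℂ) (W : ℝ → ℝ → ℂ) (r : ℤ) (c b : ℂ) : Prop :=
  ∀ τ : ℝ, ¬ Blocked m F τ →
    ∃ C : ℝ, ∀ᶠ x : ℝ in atTop, ‖c * normalised (W τ) τ r x - b‖ ≤ C / Real.log x

/-- The conclusion for the other directions: `m + (1 + iτ) y` being the last zero or pole on the ray, of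
order `k`, `log P_τ(x) ~ - k ∫_0^∞ (x^{y u} - 1) du / (u Γ(1 + u))`. -/
def BlockedLaw (m : ℤ) (F : ℂ → ℂ) (W : ℝ → ℝ → ℂ) : Prop :=
  ∀ τ : ℝ, Blocked m F τ → ∃ (y : ℝ) (k : ℤ), 0 < y ∧ k ≠ 0 ∧
    meromorphicOrderAt F (ray m τ y) = k ∧
    (∀ z : ℝ, y < z → meromorphicOrderAt F (ray m τ z) = 0) ∧
    Tendsto (fun x : ℝ => W τ x / grow (y * Real.log x)) atTop (𝓝 (-k)) ∧
    ∀ c < y, ∀ᶠ x : ℝ in atTop, Real.exp (x ^ c) ≤ |(W τ x).re|

section bridge

variable {K : Type} [Field K] [NumberField K] {n N i : ℕ} {m : ℤ}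
  {α : HeightOneSpectrum (𝓞 K) → Fin N → ℂ} {F : ℂ → ℂ}

theorem ser (hα : ∀ v j, ‖α v j‖ ≤ (Ideal.absNorm v.asIdeal : ℝ) ^ ((i : ℝ) / 2))
    (hF : IsContinuation i m α F) : U745.DS.Ser (U745.DS.plam K)
      (U745.DS.sh (U745.DS.plam K) (U745.DS.pco α) (m : ℂ))
      (max ((i : ℝ) / 2 + 1 - (m : ℂ).re) 0) (fun s => F ((m : ℂ) + s)) :=
  (U745.DS.half_nf (σ₀ := (m : ℝ)) hα hF.1 hF.2).at (by simp)

theorem term_eq (m : ℤ) (α : HeightOneSpectrum (𝓞 K) → Fin N → ℂ) (τ x : ℝ)
    (p : HeightOneSpectrum (𝓞 K) × ℕ) : term m α τ x p =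
    U745.DS.sh (U745.DS.plam K) (U745.DS.pco α) (m : ℂ) p *
      (Complex.Gamma (1 + W524.RY.dir τ * (U745.DS.plam K p / Real.log x)))⁻¹ := by
  unfold term U745.DS.sh
  have e : ∀ S a b g : ℂ, S / (a * b * g) = S / a * b⁻¹ * g⁻¹ := by
    intro S a b g
    rw [div_eq_mul_inv, mul_inv, mul_inv, div_eq_mul_inv]
    ring
  rw [U745.DS.exp_plam, Complex.cpow_neg, Complex.cpow_intCast, inv_pow, e]
  rfl

theorem logProd_eq (m : ℤ) (α : HeightOneSpectrum (𝓞 K) → Fin N → ℂ) (τ x : ℝ) :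
    logProd m α τ x = U745.DS.WW (U745.DS.plam K)
      (U745.DS.sh (U745.DS.plam K) (U745.DS.pco α) (m : ℂ)) τ x := by
  unfold logProd U745.DS.WW U745.DS.VV
  exact tsum_congr fun p => term_eq m α τ x p

theorem blocked_iff {τ : ℝ} : ¬ Blocked m F τ ↔ U745.DS.Clear (fun s => F ((m : ℂ) + s)) τ := by
  rw [U745.DS.clear_iff]
  unfold Blocked
  push Not
  rfl

theorem lead_iff (r : ℤ) (B : ℂ) : LeadingTerm m F r B ↔
    U745.LT.Leading (fun s => F ((m : ℂ) + s)) 0 r B := by
  rw [U745.DS.leading_shift]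
  rfl

end bridge

section bundles

open Pool.Agent.Results.MP_29b22a_nt.QuadricBundles (IsBundle solutions RankZero IsLFunction Good
  IsTwist)

/-- The trace `t(q)` of the Frobenius of the field with `q = p ^ r` elements on `H^(2k+1)(Y)`, for the
quadric bundle `Y` over the line with the matrix `S`:
`t(q) = (q + 1) (1 + q + ... + q^(2k)) - #Y(F_q)`; every point of `Y` over this field is given by
`(q - 1)²` elements of `solutions`. -/
noncomputable def trace (k : ℕ) (S : Matrix (Fin (2 * k + 2)) (Fin (2 * k + 2)) (MvPolynomial (Fin 2) ℤ))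
    (p r : ℕ) : ℂ :=
  if h : p.Prime then
    haveI : Fact p.Prime := ⟨h⟩
    ((p : ℂ) ^ r + 1) * ∑ j ∈ Finset.range (2 * k + 1), ((p : ℂ) ^ r) ^ j -
      ((solutions S (GaloisField p r)).ncard : ℂ) / ((p : ℂ) ^ r - 1) ^ 2
  else 0

/-- The pairs `(p, j)`, where `p` is a prime that does not divide `42 D e`; they stand for the numbers
`q = p^(j+1)`. -/
abbrev Powers (D : ℕ) (e : ℤ) : Type := {p : ℕ // p.Prime ∧ ¬ (p : ℤ) ∣ 42 * D * D * e} × ℕ

/-- The term `t(q) / ((j+1) q^s)` at `q = p^(j+1)`. -/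
noncomputable def seriesTerm (k : ℕ) {D : ℕ} {e : ℤ}
    (S : Matrix (Fin (2 * k + 2)) (Fin (2 * k + 2)) (MvPolynomial (Fin 2) ℤ)) (s : ℂ)
    (i : Powers D e) : ℂ :=
  trace k S i.1.1 (i.2 + 1) / (i.2 + 1) * (((i.1.1 : ℕ) : ℂ) ^ (-s)) ^ (i.2 + 1)

/-- The term `t(q) / ((j+1) q^m Γ(1 + ω log q / log x))` at `q = p^(j+1)`. -/
noncomputable def bundleTerm (k : ℕ) {D : ℕ} {e : ℤ}
    (S : Matrix (Fin (2 * k + 2)) (Fin (2 * k + 2)) (MvPolynomial (Fin 2) ℤ)) (m : ℤ) (τ x : ℝ)
    (i : Powers D e) : ℂ :=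
  seriesTerm k S (m : ℂ) i / Complex.Gamma (1 + (1 + τ * Complex.I) *
    (((i.2 + 1) * Real.log (i.1.1 : ℕ) : ℝ) / Real.log x))

/-- `∑_q t(q) / (j q^m Γ(1 + ω log q / log x))` -/
noncomputable def bundleLog (k D : ℕ) (e : ℤ)
    (S : Matrix (Fin (2 * k + 2)) (Fin (2 * k + 2)) (MvPolynomial (Fin 2) ℤ)) (m : ℤ) (τ x : ℝ) : ℂ :=
  ∑' i : Powers D e, bundleTerm k S m τ x i

/-- The function `L(s) = exp ∑_q t(q) / (j q^s)`, `Re s > k + 3/2`, is entire; and for every integer `m`
it has a leading term at `s = m`, which is the limit of the smoothed products with the error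
`O(1 / log x)` for all `τ` but finitely many in every bounded interval. -/
def Numerical (k D : ℕ) (e : ℤ)
    (S : Matrix (Fin (2 * k + 2)) (Fin (2 * k + 2)) (MvPolynomial (Fin 2) ℤ)) : Prop :=
  ∃ L : ℂ → ℂ, Differentiable ℂ L ∧
    (∀ s : ℂ, (k : ℝ) + 3 / 2 < s.re → (Summable fun i : Powers D e => ‖seriesTerm k S s i‖) ∧
      L s = Complex.exp (∑' i : Powers D e, seriesTerm k S s i)) ∧
    ∀ m : ℤ, (∀ τ x : ℝ, 1 < x → Summable fun i : Powers D e => ‖bundleTerm k S m τ x i‖) ∧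
      (∀ b : ℝ, {τ : ℝ | |τ| ≤ b ∧ Blocked m L τ}.Finite) ∧
      (∃ (r : ℤ) (ℓ : ℂ), ℓ ≠ 0 ∧ LeadingTerm m L r ℓ ∧ FreeLaw m L (bundleLog k D e S m) r 1 ℓ) ∧
      BlockedLaw m L (bundleLog k D e S m)

/-- `D` is squarefree and all its prime factors are `≡ 1 mod 4`. -/
def InClass (D : ℕ) : Prop := Squarefree D ∧ ∀ p ∈ D.primeFactors, p % 4 = 1

theorem blocked_iff_zero {L : ℂ → ℂ} (hL : Differentiable ℂ L) (m : ℤ) (τ : ℝ) :
    Blocked m L τ ↔ ¬ ∀ y : ℝ, 0 < y → L ((m : ℂ) + (1 + τ * Complex.I) * y) ≠ 0 := by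
  unfold Blocked ray
  push Not
  refine exists_congr fun y => and_congr_right fun _ => ?_
  rw [ne_eq, Pool.Agent.U745.QB.order_zero_iff hL, not_not]

theorem numerical {k D : ℕ} {e : ℤ}
    {S : Matrix (Fin (2 * k + 2)) (Fin (2 * k + 2)) (MvPolynomial (Fin 2) ℤ)}
    (h : RankZero k D D e S) : Numerical k D e S := by
  obtain ⟨-, -, L, ⟨hL, A, hA, hprod⟩, -⟩ := h
  have hd : Pool.Agent.U745.QB.Data (42 * D * D * e) 4 ((k : ℝ) + 1 / 2) A (trace k S) L := by
    refine ⟨hL, fun p hp hpB => (hA p hp hpB).2.1, fun p hp hpB α hα => ?_, fun p hp hpB r hr => ?_,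
      fun s hs => hprod s (by linarith)⟩
    · have h1 := (hA p hp hpB).2.2 α hα
      have hp0 : (0 : ℝ) ≤ p := Nat.cast_nonneg p
      have h2 : ((p : ℝ) ^ ((k : ℝ) + 1 / 2)) ^ 2 = (p : ℝ) ^ (2 * k + 1) := by
        rw [← Real.rpow_natCast, ← Real.rpow_mul hp0, ← Real.rpow_natCast]
        congr 1
        push_cast
        ring
      rw [← h2] at h1
      exact (sq_le_sq₀ (norm_nonneg _) (Real.rpow_nonneg hp0 _)).1 h1.le
    · haveI : Fact p.Prime := ⟨hp⟩
      haveI : Finite (GaloisField p r) := inferInstance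
      have h1 : Nat.card (GaloisField p r) = p ^ r := GaloisField.card p r hr.ne'
      have h2 := (hA p hp hpB).1 (GaloisField p r) r h1
      have h3 : ((p : ℂ) ^ r - 1) ^ 2 ≠ 0 := by
        refine pow_ne_zero 2 (sub_ne_zero.2 fun h4 => ?_)
        have h5 : p ^ r = 1 := by exact_mod_cast h4
        have h6 := Nat.one_lt_pow hr.ne' hp.one_lt
        omega
      unfold trace
      rw [dif_pos hp, h2, h1]
      push_cast
      rw [mul_div_cancel_left₀ _ h3]
      ring
  have htm : ∀ (m : ℤ) (τ x : ℝ) (i : Powers D e), bundleTerm k S m τ x i =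
      Pool.Agent.U745.QB.tm (42 * D * D * e) (trace k S) (m : ℂ) τ x i := by
    intro m τ x i
    unfold bundleTerm seriesTerm Pool.Agent.U745.QB.tm
    rw [div_mul_eq_mul_div, div_div]
  have hlog : ∀ (m : ℤ) (τ x : ℝ), bundleLog k D e S m τ x =
      ∑' i, Pool.Agent.U745.QB.tm (42 * D * D * e) (trace k S) (m : ℂ) τ x i := fun m τ x =>
    tsum_congr fun i => htm m τ x i
  refine ⟨L, hL, fun s hs => hd.logser (by linarith), fun m => ⟨fun τ x hx => ?_, fun b => ?_, ?_,
    fun τ hτ => ?_⟩⟩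
  · refine (hd.summ (m : ℂ) τ hx).congr fun i => ?_
    rw [htm]
  · simp only [blocked_iff_zero hL]
    exact hd.finite _ b
  · obtain ⟨r, ℓ, hℓ, hr⟩ := hd.lead (m : ℂ)
    refine ⟨r, ℓ, hℓ, hr, fun τ hτ => ?_⟩
    rw [blocked_iff_zero hL, not_not] at hτ
    obtain ⟨C, hC⟩ := hd.law hℓ hr hτ
    refine ⟨C, ?_⟩
    filter_upwards [hC] with x hx
    unfold normalised
    rw [one_mul, hlog]
    exact hx
  · obtain ⟨y, n, hy, hn, h1, h2, h3, h4⟩ := hd.fast2 (s₀ := (m : ℂ)) (τ := τ) hτ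
    refine ⟨y, n, hy, hn, h1, h2, ?_, fun c hc => ?_⟩
    · simp only [hlog]
      exact h3
    · simp only [hlog]
      exact h4 c hc

theorem num_eq (Q R : ℕ → Prop)
    (h : ∀ D, (Pool.Agent.Results.MP_92892c_nt.FullClassTwoPartX49.Family D ∧ Q D) ↔ R D) (Z : ℕ) :
    Pool.Agent.Results.MP_92892c_nt.FullClassTwoPartX49.num Q Z =
      ((Finset.Icc 1 Z).filter R).card := by
  unfold Pool.Agent.Results.MP_92892c_nt.FullClassTwoPartX49.num
  congr 1
  ext D
  rw [Finset.mem_filter, Finset.mem_filter, h]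

/-- **The unconditional cases.** -/
theorem instances : ∀ᶠ Z : ℕ in atTop,
    0.4194 * (((Finset.Icc 1 Z).filter InClass).card : ℝ) ≤
      (((Finset.Icc 1 Z).filter fun D => InClass D ∧ ∀ k : ℕ, (∃ S, IsBundle k D D 1 S) ∧
        ∀ (e : ℤ) S, IsBundle k D D e S → Numerical k D e S).card : ℝ) := by
  obtain ⟨⟨hc1, -⟩, hr⟩ := Pool.Agent.Results.MP_29b22a_nt.QuadricBundles.result
  have hF1 : ∀ M ∈ ({1} : Finset ℕ),
      Pool.Agent.Results.MP_92892c_nt.FullClassTwoPartX49.Family M := by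
    intro M hM
    rw [Finset.mem_singleton] at hM
    subst hM
    refine ⟨squarefree_one, fun p hp => ?_⟩
    simp at hp
  obtain ⟨-, hlim, hgood⟩ := hr {1} hF1
  rw [Finset.card_singleton, pow_one] at hlim
  filter_upwards [hlim.eventually_const_lt hc1] with Z hZ
  have e1 : Pool.Agent.Results.MP_92892c_nt.FullClassTwoPartX49.num (fun _ => True) Z =
      ((Finset.Icc 1 Z).filter InClass).card := by
    exact num_eq (fun _ => True) InClass (fun D => ⟨fun h => h.1, fun h => ⟨h, trivial⟩⟩) Z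
  have e2 : Pool.Agent.Results.MP_92892c_nt.FullClassTwoPartX49.num (Good {1}) Z ≤
      ((Finset.Icc 1 Z).filter fun D => InClass D ∧ ∀ k : ℕ, (∃ S, IsBundle k D D 1 S) ∧
        ∀ (e : ℤ) S, IsBundle k D D e S → Numerical k D e S).card := by
    unfold Pool.Agent.Results.MP_92892c_nt.FullClassTwoPartX49.num
    refine Finset.card_le_card fun D hD => ?_
    rw [Finset.mem_filter] at hD ⊢
    obtain ⟨h1, h2, h3⟩ := hD
    have htw : IsTwist {1} D (D : ℤ) := by
      refine ⟨1, Finset.mem_singleton_self _, 1, one_ne_zero, ?_⟩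
      unfold Pool.Agent.Results.MP_03e5d0_nt.FullClassX49.tw
      simp
    refine ⟨h1, h2, fun k => ?_⟩
    obtain ⟨h4, h5⟩ := hgood D h2 h3 k D D htw htw
    exact ⟨h4, fun e S hS => numerical (h5 e S hS)⟩
  rw [← e1]
  refine le_trans ?_ (Nat.cast_le.2 e2)
  rcases Nat.eq_zero_or_pos
    (Pool.Agent.Results.MP_92892c_nt.FullClassTwoPartX49.num (fun _ => True) Z) with h0 | h0
  · rw [h0]
    simp
  · have h1 : (0 : ℝ) <
        (Pool.Agent.Results.MP_92892c_nt.FullClassTwoPartX49.num (fun _ => True) Z : ℝ) := by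
      exact_mod_cast h0
    exact ((lt_div_iff₀ h1).1 hZ).le

end bundles

/-- **The general form.**  Let `X` be a smooth projective variety of dimension `d`
over a number field `K`, `α` the parameters of `L(H^i(X), s)`, `m` any integer, and `F` a meromorphic
continuation of `L(H^i(X), s)` to `Re s ≥ m`.  Then

1. the series `log P_τ(x)` converges absolutely for all `x > 1`;
2. only finitely many `τ` in every bounded interval are blocked;
3. `F` has a leading term `ℓ (s - m)^r` at `s = m`, `r` an integer, `ℓ ≠ 0`; for the `τ` that are not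
  blocked `P_τ(x) (log x / (ω e^κ))^r = ℓ + O(1 / log x)`;
4. for the blocked `τ` one has `log P_τ(x) ~ - k ∫_0^∞ (x^{y u} - 1) du / (u Γ(1 + u))`;
5. for every `R ≠ 0` the following are equivalent: the leading coefficient of `F` at `s = m` is a
  rational multiple of `R`; for one integer `r`, one `τ` and one sequence `x → ∞` the number
  `P_τ(x) (log x / (ω e^κ))^r / R` tends to a rational number different from `0`; there are an integer `r`
  and a rational number `c ≠ 0` such that `P_τ(x) (log x / (ω e^κ))^r / R = c + O(1 / log x)` for all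
  `τ` that are not blocked. -/
theorem general (K : Type) [Field K] [NumberField K] (n d i N : ℕ) (m : ℤ)
    (X : Set (MvPolynomial (Fin n) (𝓞 K))) (α : HeightOneSpectrum (𝓞 K) → Fin N → ℂ)
    (hα : IsParameter X d i α) (F : ℂ → ℂ) (hF : IsContinuation i m α F) :
    (∀ τ x : ℝ, 1 < x → Summable fun p => ‖term m α τ x p‖) ∧
    (∀ b : ℝ, {τ : ℝ | |τ| ≤ b ∧ Blocked m F τ}.Finite) ∧
    (∃ (r : ℤ) (ℓ : ℂ), ℓ ≠ 0 ∧ meromorphicOrderAt F (m : ℂ) = r ∧ LeadingTerm m F r ℓ ∧
      FreeLaw m F (logProd m α) r 1 ℓ) ∧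
    BlockedLaw m F (logProd m α) ∧
    ∀ R : ℂ, R ≠ 0 → List.TFAE [
      ∃ (r : ℤ) (c : ℚ), c ≠ 0 ∧ LeadingTerm m F r (c * R),
      ∃ (r : ℤ) (c : ℚ), c ≠ 0 ∧ LimitPoint (logProd m α) r R⁻¹ c,
      ∃ (r : ℤ) (c : ℚ), c ≠ 0 ∧ FreeLaw m F (logProd m α) r R⁻¹ c] := by
  have hS := ser hα.2 hF
  have hW : ∀ τ : ℝ, logProd m α τ = U745.DS.WW (U745.DS.plam K)
      (U745.DS.sh (U745.DS.plam K) (U745.DS.pco α) (m : ℂ)) τ := fun τ =>
    funext fun x => logProd_eq m α τ x
  have hN : ∀ (τ : ℝ) (r : ℤ) (x : ℝ), normalised (logProd m α τ) τ r x =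
      Complex.exp (U745.DS.WW (U745.DS.plam K)
        (U745.DS.sh (U745.DS.plam K) (U745.DS.pco α) (m : ℂ)) τ x) *
        (Real.log x / (W524.RY.dir τ * Real.exp W189.LC.kap)) ^ r := by
    intro τ r x
    unfold normalised
    rw [hW]
    rfl
  obtain ⟨r, ℓ, hℓ, hl⟩ := U745.DS.exists_leading hS
  have hmF : MeromorphicAt F (m : ℂ) := hF.1 _ (by simp)
  have hord : meromorphicOrderAt F (m : ℂ) = r := by
    have h1 := ((U745.LT.leading_iff (hS.mer 0 (by simp)) hℓ).1 hl).1
    rwa [U745.DS.order_shift, add_zero] at h1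
  refine ⟨fun τ x hx => ?_, fun b => ?_, ⟨r, ℓ, hℓ, hord, (lead_iff r ℓ).2 hl, fun τ hτ => ?_⟩,
    fun τ hτ => ?_, fun R hR => ?_⟩
  · refine (U745.DS.VV_summable hS τ (Real.log_pos hx)).congr fun p => ?_
    rw [term_eq]
  · refine (hS.blocked_finite b).subset ?_
    rintro τ ⟨h1, h2⟩
    have h3 : ¬ U745.DS.Clear (fun s => F ((m : ℂ) + s)) τ := fun h => (blocked_iff.2 h) h2
    unfold U745.DS.Clear at h3
    push Not at h3
    exact ⟨h1, h3⟩
  · have h1 := U745.DS.law_of_leading hS hℓ hl (blocked_iff.1 hτ)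
    simp only [one_mul, hN]
    exact h1
  · obtain ⟨y, hy, hyz⟩ := hτ
    obtain ⟨x₀, h0, h01, hnz, hz⟩ := hS.exists_last τ
    have hray : ∀ y : ℝ, meromorphicOrderAt (fun s => F ((m : ℂ) + s)) (U745.DS.rp τ y) =
        meromorphicOrderAt F (ray m τ y) := by
      intro y
      rw [U745.DS.order_shift]
      rfl
    have hx0 : 0 < x₀ := by
      by_contra hcon
      apply hyz
      rw [← hray]
      exact hnz y (by linarith)
    have hz' : meromorphicOrderAt (fun s => F ((m : ℂ) + s)) (U745.DS.rp τ x₀) ≠ 0 := by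
      rcases hz with h2 | h2
      · exact absurd h2 hx0.ne'
      · exact h2
    obtain ⟨k, hk⟩ := WithTop.ne_top_iff_exists.1 (hS.ne_top (s := U745.DS.rp τ x₀) (by
      rw [U745.DS.rp_re]
      linarith))
    have hk0 : k ≠ 0 := by
      rintro rfl
      exact hz' (by rw [← hk]; rfl)
    obtain ⟨g1, g2⟩ := U745.DS.blocked hS τ hx0 h01 hk.symm hk0 hnz
    refine ⟨x₀, k, hx0, hk0, by rw [← hray]; exact hk.symm, fun z hz => ?_, ?_, fun c hc => ?_⟩
    · rw [← hray]
      exact hnz z hz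
    · rw [hW]
      exact g1
    · rw [hW]
      filter_upwards [g2 c hc] with x hx
      have hs : |(-(Int.sign k : ℝ))| ≤ 1 := by
        rcases lt_trichotomy k 0 with h6 | h6 | h6
        · rw [Int.sign_eq_neg_one_of_neg h6]; norm_num
        · rw [h6]; simp
        · rw [Int.sign_eq_one_of_pos h6]; norm_num
      refine hx.trans ((le_abs_self _).trans ?_)
      rw [abs_mul]
      exact mul_le_of_le_one_left (abs_nonneg _) hs
  · have key : ∀ (ρ : ℤ) (c : ℚ), c ≠ 0 → (LeadingTerm m F ρ (c * R) ↔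
        LimitPoint (logProd m α) ρ R⁻¹ c) := by
      intro ρ c hc
      have hb : (c : ℂ) * R ≠ 0 := mul_ne_zero (by exact_mod_cast hc) hR
      rw [lead_iff, U745.DS.leading_iff_seq hS hb]
      unfold LimitPoint
      refine exists_congr fun τ => exists_congr fun x => and_congr_right fun _ => ?_
      simp only [hN]
      constructor
      · intro h
        have h2 := h.const_mul R⁻¹
        have e : R⁻¹ * ((c : ℂ) * R) = c := by field_simp
        rw [e] at h2
        exact h2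
      · intro h
        have h2 := h.const_mul R
        have e : R * (c : ℂ) = c * R := mul_comm _ _
        rw [e] at h2
        refine h2.congr fun k => ?_
        rw [← mul_assoc, mul_inv_cancel₀ hR, one_mul]
    tfae_have 1 ↔ 2 := by
      refine exists_congr fun ρ => exists_congr fun c => and_congr_right fun hc => key ρ c hc
    tfae_have 1 → 3 := by
      rintro ⟨ρ, c, hc, h⟩
      have hb : (c : ℂ) * R ≠ 0 := mul_ne_zero (by exact_mod_cast hc) hR
      refine ⟨ρ, c, hc, fun τ hτ => ?_⟩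
      obtain ⟨C, hC⟩ := U745.DS.law_of_leading hS hb ((lead_iff ρ _).1 h) (blocked_iff.1 hτ)
      refine ⟨‖R⁻¹‖ * C, ?_⟩
      filter_upwards [hC] with x hx
      have e : R⁻¹ * normalised (logProd m α τ) τ ρ x - c =
          R⁻¹ * (normalised (logProd m α τ) τ ρ x - c * R) := by
        field_simp
      rw [e, norm_mul, mul_div_assoc]
      refine mul_le_mul_of_nonneg_left ?_ (norm_nonneg _)
      rw [hN]
      exact hx
    tfae_have 3 → 2 := by
      rintro ⟨ρ, c, hc, h⟩
      obtain ⟨τ, hτ⟩ := hS.exists_clear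
      exact ⟨ρ, c, hc, τ, fun k => k, tendsto_natCast_atTop_atTop,
        (U745.DS.lim_of_rate (h τ (blocked_iff.2 hτ))).comp tendsto_natCast_atTop_atTop⟩
    tfae_finish

open Pool.Agent.Results.MP_29b22a_nt.QuadricBundles (IsBundle) in
/-- **The numbers `L^*(H^i(X), m)` as limits**, the general form (see `general`) and unconditional cases:
at least 41.94 percent of all `D` in the class, all quadric bundles of all relative dimensions `2k` over
the line with the discriminants `e² Δ_D`, and all integers `m`. -/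
theorem result :
    (∀ (K : Type) [Field K] [NumberField K] (n d i N : ℕ) (m : ℤ)
      (X : Set (MvPolynomial (Fin n) (𝓞 K))) (α : HeightOneSpectrum (𝓞 K) → Fin N → ℂ),
      IsParameter X d i α → ∀ F : ℂ → ℂ, IsContinuation i m α F →
      (∀ τ x : ℝ, 1 < x → Summable fun p => ‖term m α τ x p‖) ∧
      (∀ b : ℝ, {τ : ℝ | |τ| ≤ b ∧ Blocked m F τ}.Finite) ∧
      (∃ (r : ℤ) (ℓ : ℂ), ℓ ≠ 0 ∧ meromorphicOrderAt F (m : ℂ) = r ∧ LeadingTerm m F r ℓ ∧
        FreeLaw m F (logProd m α) r 1 ℓ) ∧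
      BlockedLaw m F (logProd m α) ∧
      ∀ R : ℂ, R ≠ 0 → List.TFAE [
        ∃ (r : ℤ) (c : ℚ), c ≠ 0 ∧ LeadingTerm m F r (c * R),
        ∃ (r : ℤ) (c : ℚ), c ≠ 0 ∧ LimitPoint (logProd m α) r R⁻¹ c,
        ∃ (r : ℤ) (c : ℚ), c ≠ 0 ∧ FreeLaw m F (logProd m α) r R⁻¹ c]) ∧
    ∀ᶠ Z : ℕ in atTop, 0.4194 * (((Finset.Icc 1 Z).filter InClass).card : ℝ) ≤
      (((Finset.Icc 1 Z).filter fun D => InClass D ∧ ∀ k : ℕ, (∃ S, IsBundle k D D 1 S) ∧
        ∀ (e : ℤ) S, IsBundle k D D e S → Numerical k D e S).card : ℝ) :=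
  ⟨fun K _ _ n d i N m X α hα F hF => general K n d i N m X α hα F hF, instances⟩

end Pool.Agent.Results.MP_4a177b_nt.LeadingCoefficientsAsLimits
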