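import Pool.Agent.U759.TQ.Dbl
set_option autoImplicit false

/-!
Beilinson's conjecture for `K_j^(j)`, `j = dim X + 1`, in all dimensions `n ≥ 2`: the growth of the
regulators of the hypersurfaces `φ_0(z_0) φ_1(z_1) ⋯ φ_n(z_n) = λ` over `ℚ`, where the `φ_l` are rational
functions with torsion functions: functions `A_(l,j) / B_(l,j)`, `1 ≤ j ≤ k_l`, the zeros and poles of
which are poles of `φ_l` and the values of which at the zeros of `φ_l` are roots of unity.

For integers `λ` of large absolute value the `k_0 ⋯ k_n` symbols of one such function for every variable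
are unramified classes of `K_(n+1)`, and the matrix of their regulators on `k_0 ⋯ k_n` tori is
`- diag(c_t) log |λ| + O(1)`; so the determinant of the regulators, which occurs in the second part of
the conjecture, is asymptotic to `(∏ c_t) (- log |λ|) ^ (k_0 ⋯ k_n)`. The hypersurface is smooth and
geometrically irreducible.

Example: the double covers `y² = λ Q (λ Q - 4 P)` of the affine space of any dimension `n`, where
`P = ∏ (z_l² - z_l + 1) ^ (a_l)` and `Q = ∏ z_l ^ (p_l) (z_l - 1) ^ (q_l)`, `p_l + q_l < 2 a_l`, have
`2 ^ n` classes.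

The proof. Unramified: let `v` be a discrete valuation; since `∑ v(φ_l) = v(λ) ≥ 0`, if one of the
entries is not a unit at `v`, then a power of another one is a one-unit. Regulators: let `z_1, ..., z_n`
run through small circles around zeros of `A_(l,t_l)`, and let `z_0` be the branch near a zero of
`A_(0,t_0)`. Irreducible: the branch near a simple pole of `φ_0` can be continued along paths which
connect the zeros of the other functions.
-/

namespace Pool.Agent.Results.MP_4a177b_nt.RegulatorGrowth

open Pool.Agent.U759.TQ Pool.Agent.U759.TQ.Gro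

/-- (1) Let `n ≥ 2`, and for `0 ≤ l ≤ n` let `φ_l = N_l / M_l` be a rational function over `ℚ` with the
functions `A_(l,j) / B_(l,j)`, `1 ≤ j ≤ k_l`, `k_l ≥ 1`, with the conditions `Good`, that is `Tors`: all
polynomials have integral coefficients, `M_l ≠ 0`, the others are monic, the zeros of the `A_(l,j)` and
`B_(l,j)` are zeros of `M_l`, `N_l` and `B_(l,j)` generate the unit ideal over the integers, `N_l`
divides a power of `A_(l,j)^m - B_(l,j)^m` for some `m ≥ 1`, and `M_l` is monic with
`deg M_l < deg N_l`, or `deg A_(l,j) = deg B_(l,j)` for all `j`; and `Poles`: for fixed `l` the `A_(l,j)`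
are not constant, pairwise coprime and coprime to the `B_(l,i)`, and the zeros of the `A_(0,j)` are
simple zeros of `M_0`.

Then (`Concl`) there are constants `B` and `c_t ≥ 1`, `t = (t_0, ..., t_n)`, and for every `ε > 0` there
is `C` such that for all integers `λ` with `|λ| ≥ C` the following holds for the hypersurface
`∏ N_l(z_l) = λ ∏ M_l(z_l)` over `ℚ` and its open part, on which the `M_l`, `A_(l,j)`, `B_(l,j)` do not
vanish: the open part is not empty; if `N_l, M_l` are coprime and `deg M_l ≤ deg N_l` for `l ≥ 1`, then
the coordinate ring of the hypersurface is a domain and its equation is irreducible over `ℂ`; the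
hypersurface is smooth at the complex points where the `M_l` do not vanish; the `k_0 ⋯ k_n` symbols
`{A_(0,s_0)/B_(0,s_0) (z_0), ..., A_(n,s_n)/B_(n,s_n) (z_n)}` have unramified images in
`K_(n+1) (L) ⊗ ℚ` for all fields `L` with a homomorphism from the coordinate ring of the open part; and
there are tori `Γ_t` of dimension `n` in the open part such that the regulators of the symbols `s` on
them differ from `- δ_(s,t) c_t log |λ|` by at most `B`, their determinant is not zero, and the
determinant divided by `(- log |λ|) ^ (k_0 ⋯ k_n)` differs from `∏ c_t` by at most `ε`.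

(2) Let `P = ∏ (z_l² - z_l + 1) ^ (a_l)`, `Q = ∏ z_l ^ (p_l) (z_l - 1) ^ (q_l)`, `1 ≤ l ≤ n`,
`p_l, q_l ≥ 1`, `p_l + q_l < 2 a_l`. The conditions, and those for irreducibility, are satisfied by
`(z_0 + 1)² P = λ z_0 Q` with the function `z_0` and the functions `z_l`, `z_l - 1` for `l ≥ 1`: there
are `2 ^ n` symbols; and this hypersurface is the double cover `y² = λ Q (λ Q - 4 P)`, where
`2 P z_0 = y + λ Q - 2 P`. -/
theorem result.{v} :
    (∀ (n : ℕ) (k : Fin (n + 1) → ℕ) (D : Dat ℚ n k), 2 ≤ n → Good D → Concl.{v} D) ∧
    ∀ (n : ℕ) (a p q : Fin n → ℕ), (∀ l, p l ≠ 0) → (∀ l, q l ≠ 0) →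
      (∀ l, p l + q l < 2 * a l) →
      Nice (dbl a p q) ∧ ∏ l, kk n l = 2 ^ n ∧ ∀ lam : ℤ, DoubleCover a p q lam :=
  ⟨fun _ _ _ hn H => concl (by omega) H, fun n _ _ _ hp hq h =>
    ⟨dbl_good hp hq h, prod_kk n, doubleCover _ _ _⟩⟩

end Pool.Agent.Results.MP_4a177b_nt.RegulatorGrowth
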