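import Pool.Agent.U374.Mn.TMain
set_option autoImplicit false

/-!
The regulator on `K_j(X)^{(j)}`, `j = dim X + 1`: on the hypersurfaces
`λ g(x) ∏_(j,i) P_(j,i)(x_0, ..., x_j) ^ (w_(j,i) + 1) = 1` of every dimension `d`, where the `P_(j,i)`
are arbitrary polynomials which are monic in `x_j` with integral coefficients (of any degrees; their
zero sets are in general not graphs), the symbols `{u_(0,T_0), ..., u_(d,T_d)}`,
`u_(j,i) = P_(j,i) ^ e_(j,0) / P_(j,0) ^ e_(j,i)`, `e_(j,i)` the degree of `P_(j,i)` in `x_j`, are
unramified, and the regulators of those for which the hypersurfaces `P_(j,T_j) = 0` meet in a vertex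
are linearly independent, for all large integers `λ`.
-/

namespace Pool.Agent.Results.MP_4a177b_nt.TriangularHypersurfaces

open Pool.Agent.TH826.MK (KQ Unramified Torus)

open Pool.Agent.U374.Mn

open MvPolynomial

section defs

/-- At all complex points (over `σ`) of the hypersurface `Φ(x) = 1` the gradient of the equation is
not zero. -/
def Smooth {K : Type*} [Field K] {d : ℕ} (σ : K →+* ℂ) (A : HSys K d) (lam : K) : Prop :=
  ∀ x : Fin (d + 1) → ℂ, eval₂ σ x (A.Phi lam) = 1 → ∃ j, eval₂ σ x (pderiv j (A.Phi lam)) ≠ 0

/-- The symbols of all selections have unramified images in the Milnor K-theory of all fields `L`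
with a homomorphism from the coordinate ring. -/
def UnramifiedSymbols.{u, v} {K : Type u} [Field K] {d : ℕ} (A : HSys K d) (lam : K) : Prop :=
  ∀ (T : A.Sel) (L : Type v) [Field L] (f : A.Ring lam →+* L),
    KQ.map _ f (A.sym lam T) ∈ Unramified L _

/-- There are tori `Γ_T` over `σ`, one for each selection `T` with a vertex, such that the vectors of
the regulators on these tori of the symbols of the selections with a vertex are linearly independent
over the real numbers. -/
def IndependentRegulators {K : Type*} [Field K] {d : ℕ} (σ : K →+* ℂ) (A : HSys K d)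
    (lam : K) : Prop :=
  ∃ Γ : {T : A.Sel // A.HasVertex σ T} → Torus (A.Ring lam) d,
    (∀ T θ (x : K), (Γ T).e θ (A.cst lam x) = σ x) ∧
    LinearIndependent ℝ fun (T' : {T : A.Sel // A.HasVertex σ T})
      (T : {T : A.Sel // A.HasVertex σ T}) => (Γ T).reg (A.sym lam T'.1)

end defs

/-- Let `d ≥ 0`, and let `σ` be a complex embedding of the number field `K`. For `0 ≤ j ≤ d` and
`0 ≤ i ≤ r_j` let `P_(j,i)` be a polynomial in `x_0, ..., x_j` over `K` with integral coefficients,
monic of degree `e_(j,i) > 0` in `x_j` (that is, `P_(j,i) - x_j ^ e_(j,i)` has degree less than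
`e_(j,i)` in `x_j`); let `w_(j,i) ≥ 0` be integers, and let `g` be a polynomial in `x_0, ..., x_d` with
integral coefficients.

There is a constant `C` such that for all algebraic integers `λ` of `K` with `|σ λ| ≥ C` the following
holds for the hypersurface `Φ(x) = 1`, `Φ = λ g ∏_(j,i) P_(j,i) ^ (w_(j,i) + 1)`, of dimension `d`, and
its coordinate ring `A`.

The hypersurface is smooth (over `σ`).

For all `T = (T_0, ..., T_d)`, `1 ≤ T_j ≤ r_j`, the symbol `{u_(0,T_0), ..., u_(d,T_d)}`,
`u_(j,i) = P_(j,i) ^ e_(j,0) / P_(j,0) ^ e_(j,i)`, in the Milnor K-theory of `A` has unramified images in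
the Milnor K-theory of all fields `L` with a homomorphism `A → L`.

The selection `T` has a vertex, if there is a complex point `x` with `P_(j,T_j)(x) = 0` and
`(∂P_(j,T_j)/∂x_j)(x) ≠ 0` for all `j`, `P_(j,i)(x) ≠ 0` for all `j` and `i ≠ T_j`, and `g(x) ≠ 0`.
There are tori `Γ_T` of dimension `d` in the complex points (over `σ`) of the hypersurface, one for
each selection with a vertex, such that the regulators on these tori of the symbols of the selections
with a vertex are linearly independent over the real numbers. -/
theorem result.{u, v} (d : ℕ) (K : Type u) [Field K] [NumberField K] (σ : K →+* ℂ)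
    (A : HSys K d) (hA : A.Admissible) :
    ∃ C : ℝ, ∀ lam : K, IsIntegral ℤ lam → C ≤ ‖σ lam‖ →
      Smooth σ A lam ∧ UnramifiedSymbols.{u, v} A lam ∧ IndependentRegulators σ A lam := by
  obtain ⟨C, hC⟩ := HSys.exists_indep σ hA
  obtain ⟨C', -, hC'⟩ := HSys.exists_smooth A σ
  exact ⟨max C C', fun lam hlam hl => ⟨hC' lam ((le_max_right _ _).trans hl),
    fun T L _ f => HSys.unram hA hlam T L f, hC lam ((le_max_left _ _).trans hl)⟩⟩

end Pool.Agent.Results.MP_4a177b_nt.TriangularHypersurfaces
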